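import Pool.Agent.Q330.TU.Final
set_option autoImplicit false

/-!
# The monotone diameter of polyhedra with bounded subdeterminants is polynomial

Linear programs `max c x`, `A x ≤ b`, `x ≥ 0` with `n` variables, where `A` is an integer matrix
all of whose subdeterminants are at most `Δ` in absolute value (`Δ = 1`: totally unimodular
matrices); `b` and `c` are arbitrary real vectors.

1. From every vertex there is a path of improving edges with at most
   `150 n ^ 6 Δ ^ 4 (1 + ⌈log₂ (n Δ)⌉)` edges to an optimal vertex, or to a vertex with an unbounded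
   improving edge. The bound does not depend on `b`, `c` and the number of constraints.
2. A random version of the simplex method finds such a path. Let `c` be integral, with
   `|c j| ≤ C`, let `q` be the sum of `n` linearly independent rows which are tight at the start
   vertex, and let `X` be a uniformly random vector in `{0, …, 2 n² Δ - 1} ^ n`. The shadow vertex
   rule with the auxiliary objective `2 n³ Δ² q + X` makes, on average over `X`, at most
   `150 n ^ 5 Δ ^ 4 (1 + ⌈log₂ (n Δ)⌉ + ⌈log₂ C⌉)` pivots, whatever the choices in case of ties.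
   All pivots improve the given objective `c`.

The proof of 2. For a visited vertex `x` let `μ` be a parameter such that `x` maximises
`c + μ d`, `d = 2 n³ Δ² q + X`, and let `q x` be the sum of `n` independent rows tight at `x`. If we
replace `X` by `X + q x`, and `μ` by the next number of the form `μ₀ (1 + η) ^ k`, the objective is
in the interior of the normal cone of `x`. So `(X, x) ↦ (k, X + q x)` is injective, and the number
of pairs `(X, x)` is at most the number of scales times the number of integer points of a slightly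
larger cube. For 1. the objective `c` is rounded: there is an integral objective with entries at
most `n! Δ ^ n` for which the same edges are improving.
-/

namespace Pool.Agent.Results.MP_4d246d_lc.BoundedSubdeterminants

open Pool.Agent.Q330

variable {m n : ℕ}

/-- the feasible set of the linear program `max c x`, `A x ≤ b`, `x ≥ 0` -/
def feasible (A : Fin m → Fin n → ℤ) (b : Fin m → ℝ) : Set (Fin n → ℝ) :=
  {x | (∀ i, ∑ j, (A i j : ℝ) * x j ≤ b i) ∧ ∀ j, 0 ≤ x j}

/-- the value `c x` -/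
def val (c x : Fin n → ℝ) : ℝ := ∑ j, c j * x j

/-- a pivot: `x` and `y` are vertices of `P`, joined by an edge of `P`, and `c x < c y` -/
def Pivot (P : Set (Fin n → ℝ)) (c x y : Fin n → ℝ) : Prop :=
  x ∈ P.extremePoints ℝ ∧ y ∈ P.extremePoints ℝ ∧ IsExposed ℝ P (segment ℝ x y) ∧
    val c x < val c y

/-- the simplex method stops at `x`: `x` maximises `c`, or `P` has an unbounded edge at `x` on
which `c` increases -/
def Stop (P : Set (Fin n → ℝ)) (c x : Fin n → ℝ) : Prop :=
  (∀ z ∈ P, val c z ≤ val c x) ∨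
    ∃ d : Fin n → ℝ, 0 < val c d ∧ IsExposed ℝ P {z | ∃ t : ℝ, 0 ≤ t ∧ z = x + t • d}

/-- a pivot of the shadow vertex rule with the auxiliary objective `d`: both ends of the edge
maximise the objective `c + μ d`, for some `μ > 0` -/
def ShadowPivot (P : Set (Fin n → ℝ)) (c d x y : Fin n → ℝ) : Prop :=
  Pivot P c x y ∧ ∃ μ : ℝ, 0 < μ ∧ (∀ z ∈ P, val (c + μ • d) z ≤ val (c + μ • d) x) ∧
    ∀ z ∈ P, val (c + μ • d) z ≤ val (c + μ • d) y

/-- the rows of the constraints `A x ≤ b`, `-x ≤ 0` -/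
def row (A : Fin m → Fin n → ℤ) : Fin m ⊕ Fin n → Fin n → ℤ :=
  Sum.elim A fun j => -Pi.single j 1

/-- the right hand sides of the constraints `A x ≤ b`, `-x ≤ 0` -/
def rhs (n : ℕ) (b : Fin m → ℝ) : Fin m ⊕ Fin n → ℝ := Sum.elim b fun _ => 0

theorem feasible_eq (A : Fin m → Fin n → ℤ) (b : Fin m → ℝ) :
    feasible A b = TU.Ply (TU.rowsN A) (TU.rhsN b) := by
  ext x
  simp only [feasible, TU.Ply, Set.mem_ofPred_eq, Sum.forall]
  refine and_congr Iff.rfl (forall_congr' fun j => ?_)
  have h : TU.rr (TU.rowsN A) (Sum.inr j) = -Pi.single j 1 := by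
    funext i
    simp only [TU.rr, TU.rv, TU.rowsN, Sum.elim_inr, Pi.neg_apply]
    by_cases hij : i = j
    · subst hij; simp
    · simp [Pi.single_eq_of_ne hij]
  rw [h, neg_dotProduct, single_one_dotProduct]
  simp [TU.rhsN]

/-- **Polynomial monotone diameter, and a random pivot rule, for bounded subdeterminants.** -/
theorem result (m n Δ : ℕ) (hn : 1 ≤ n) (hΔ : 1 ≤ Δ) (A : Fin m → Fin n → ℤ)
    (hA : ∀ (k : ℕ) (f : Fin k → Fin m) (s : Fin k → Fin n),
      |(Matrix.of fun i j => A (f i) (s j)).det| ≤ Δ)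
    (b : Fin m → ℝ) (v : Fin n → ℝ) (hv : v ∈ (feasible A b).extremePoints ℝ) :
    (∀ c : Fin n → ℝ, ∃ (N : ℕ) (w : ℕ → Fin n → ℝ),
      N ≤ 150 * n ^ 6 * Δ ^ 4 * (1 + Nat.clog 2 (n * Δ)) ∧ w 0 = v ∧
      (∀ k < N, Pivot (feasible A b) c (w k) (w (k + 1))) ∧ Stop (feasible A b) c (w N)) ∧
    ∀ (c : Fin n → ℤ) (C : ℕ), 1 ≤ C → (∀ j, |c j| ≤ C) →
      ∀ idx : Fin n → Fin m ⊕ Fin n,
      (∀ k, val (fun j => (row A (idx k) j : ℝ)) v = rhs n b (idx k)) →
      (Matrix.of fun k => row A (idx k)).det ≠ 0 →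
      ∃ len : (Fin n → ℤ) → ℕ,
        ∑ X ∈ Fintype.piFinset fun _ : Fin n => Finset.Ico (0 : ℤ) (2 * n ^ 2 * Δ), len X ≤
          150 * n ^ 5 * Δ ^ 4 * (1 + Nat.clog 2 (n * Δ) + Nat.clog 2 C) * (2 * n ^ 2 * Δ) ^ n ∧
        ∀ X : Fin n → ℤ, (∀ j, 0 ≤ X j ∧ X j < 2 * n ^ 2 * Δ) →
          ∀ (N : ℕ) (w : ℕ → Fin n → ℝ), w 0 = v →
          (∀ k < N, ShadowPivot (feasible A b) (fun j => (c j : ℝ))
            (fun j => ((2 * n ^ 3 * Δ ^ 2 * (∑ k, row A (idx k) j) + X j : ℤ) : ℝ))
            (w k) (w (k + 1))) →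
          N < len X ∧ (Stop (feasible A b) (fun j => (c j : ℝ)) (w N) ∨
            ∃ y, ShadowPivot (feasible A b) (fun j => (c j : ℝ))
              (fun j => ((2 * n ^ 3 * Δ ^ 2 * (∑ k, row A (idx k) j) + X j : ℤ) : ℝ)) (w N) y) := by
  have hM : TU.MinorsLe (TU.rowsN A) Δ := TU.minors_rowsN hΔ hA
  rw [feasible_eq] at hv ⊢
  refine ⟨fun c => ?_, fun c C hC hc idx h1 h2 => ?_⟩
  · obtain ⟨N, w, g1, g2, g3, g4⟩ := TU.monotone_diameter hM hn hΔ hv c
    refine ⟨N, w, g1, g2, fun k hk => ⟨?_, (g3 k hk).1, (g3 k hk).2.1, (g3 k hk).2.2⟩, g4⟩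
    rcases Nat.eq_zero_or_pos k with rfl | hk0
    · rw [g2]; exact hv
    · have := (g3 (k - 1) (by omega)).1
      rwa [show k - 1 + 1 = k by omega] at this
  · obtain ⟨len, l1, l2⟩ := TU.random_rule hM hn hΔ hv hC hc (idx := idx) h1 h2
    have hcube : (Fintype.piFinset fun _ : Fin n => Finset.Ico (0 : ℤ) (2 * n ^ 2 * Δ)) =
        TU.cube n Δ := by
      unfold TU.cube TU.side TU.kap
      congr 1
      funext _
      congr 1
      push_cast
      ring
    have hcard : (TU.cube n Δ).card = (2 * n ^ 2 * Δ) ^ n := by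
      rw [← hcube, Fintype.card_piFinset]
      simp only [Int.card_Ico, Finset.prod_const, Finset.card_univ, Fintype.card_fin, sub_zero]
      congr 1
    have haux : ∀ X : Fin n → ℤ,
        (fun j => ((2 * n ^ 3 * Δ ^ 2 * (∑ k, row A (idx k) j) + X j : ℤ) : ℝ)) =
        TU.rv (TU.aux Δ (∑ k, TU.rowsN A (idx k)) X) := by
      intro X
      funext j
      unfold TU.rv TU.aux TU.side TU.kap
      congr 1
      rw [Finset.sum_apply]
      push_cast
      change 2 * (n : ℤ) ^ 3 * Δ ^ 2 * (∑ k, TU.rowsN A (idx k) j) + X j = _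
      ring
    refine ⟨len, ?_, fun X hX N w hw0 hw => ?_⟩
    · rw [hcube, ← hcard]
      exact l1
    · have hX' : X ∈ TU.cube n Δ := by
        rw [← hcube, Fintype.mem_piFinset]
        exact fun j => Finset.mem_Ico.2 (hX j)
      rw [haux X] at hw ⊢
      obtain ⟨k1, k2⟩ := l2 X hX' N w hw0 fun k hk => by
        obtain ⟨⟨p1, p2, p3, p4⟩, μ, p5, p6, p7⟩ := hw k hk
        exact ⟨p1, p2, p3, p4, μ, p5, p6, p7⟩
      refine ⟨k1, ?_⟩
      rcases k2 with h | h | ⟨y, p1, p2, p3, p4, μ, p5, p6, p7⟩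
      · exact Or.inl (Or.inl h)
      · exact Or.inl (Or.inr h)
      · exact Or.inr ⟨y, ⟨p1, p2, p3, p4⟩, μ, p5, p6, p7⟩

end Pool.Agent.Results.MP_4d246d_lc.BoundedSubdeterminants
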