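import Pool.Agent.Q330.LV.Rule

/-!
# The ordered shadow rule, and polyhedra with few slack levels

Linear programs `max c x` over a polyhedron `P = {x : a i x ≤ b i}` in `n` variables with real data
and a start vertex `v`; `P` may be degenerate or unbounded.

1. Let `f 1, …, f r` be functionals which attain their minimum over `P` at `v`, and all of them only
   there. The ordered shadow rule works in `r` stages. The face of stage `j` consists of the points
   of `P` at which the functionals after `f j` are minimal. In stage `j` the rule follows edges of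
   this face on which `c` and `f j` increase, with the largest slope of `c` against `f j`, until `c`
   is maximal on the face. Every run, whatever the choices in case of ties, makes at most
   `∑ j (L j - 1)` pivots, where `L j` is the number of different values of `f j` at the vertices in
   the face of stage `j`; it never gets stuck, and ends at an optimal vertex or at a vertex with an
   unbounded improving edge. All its pivots improve `c`.
2. So if for every row `i` the slack `b i - a i x` has at most `K` different values at the vertices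
   of `P`, then from every vertex and for every objective function there is an improving path with at
   most `n (K - 1)` edges.
3. In particular the monotone diameter of a polyhedron with integral vertices and integral
   rows is at most `n K` if at every vertex all slacks are at most `K`.

By a result of the starting files (`LatticeWidthThree`) every pivot rule is exponential on some
lattice polytopes in `[0,3]^n`. There the coordinates have at most four values at the vertices, but
they are not minimal or maximal at the start vertex: it is the width in the directions of the facets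
which matters.
-/

set_option autoImplicit false

open Matrix

namespace Pool.Agent.Results.MP_4d246d_lc.FewSlackLevels

open Pool.Agent.Q330.LV

/-- From `v` there is a path of at most `B` improving edges of `P` to a vertex at which `c` is
maximal, or to a vertex with an unbounded improving edge. -/
def ShortPath {n : ℕ} (P : Set (Fin n → ℝ)) (c v : Fin n → ℝ) (B : ℕ) : Prop :=
  ∃ (N : ℕ) (w : ℕ → Fin n → ℝ), N ≤ B ∧ w 0 = v ∧
    (∀ i < N, Improving P c (w i) (w (i + 1))) ∧
    ((∀ z ∈ P, c ⬝ᵥ z ≤ c ⬝ᵥ w N) ∨ Ray P c (w N))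

theorem result {ι : Type} [Fintype ι] {n : ℕ} (a : ι → Fin n → ℝ) (b : ι → ℝ) (c v : Fin n → ℝ)
    (hv : v ∈ (Ply a b).extremePoints ℝ) :
    -- the ordered shadow rule
    (∀ (r : ℕ) (f : Fin r → Fin n → ℝ), (∀ i, ∀ z ∈ Ply a b, f i ⬝ᵥ v ≤ f i ⬝ᵥ z) →
      (∀ z ∈ Ply a b, (∀ i, f i ⬝ᵥ z = f i ⬝ᵥ v) → z = v) →
      (∀ (k j : ℕ) (x : Fin n → ℝ), Run (Ply a b) c f v k j x →
        k ≤ ∑ i, (levels (Ply a b) f v i - 1) ∧ j ≤ r ∧
        (j = r → ∀ z ∈ Ply a b, c ⬝ᵥ z ≤ c ⬝ᵥ x)) ∧
      (∀ (k : ℕ) (j : Fin r) (x : Fin n → ℝ), Run (Ply a b) c f v k j x →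
        (∃ y, Pivot (Ply a b) c f v j x y) ∨ Ray (Ply a b) c x ∨
          ∀ z ∈ Fc (Ply a b) f v (j + 1), c ⬝ᵥ z ≤ c ⬝ᵥ x) ∧
      ShortPath (Ply a b) c v (∑ i, (levels (Ply a b) f v i - 1))) ∧
    -- few slack levels
    (∀ K : ℕ, (∀ i, {t : ℝ | ∃ w ∈ (Ply a b).extremePoints ℝ, b i - a i ⬝ᵥ w = t}.ncard ≤ K) →
      ShortPath (Ply a b) c v (n * (K - 1))) ∧
    -- integral vertices and small slacks
    (∀ (A : ι → Fin n → ℤ) (β : ι → ℤ) (K : ℕ), (∀ i j, a i j = A i j) → (∀ i, b i = β i) →
      (∀ w ∈ (Ply a b).extremePoints ℝ, ∃ u : Fin n → ℤ, ∀ j, w j = u j) →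
      (∀ i, ∀ w ∈ (Ply a b).extremePoints ℝ, b i - a i ⬝ᵥ w ≤ K) →
      ShortPath (Ply a b) c v (n * K)) := by
  have hfin : ∀ i, {t : ℝ | ∃ w ∈ (Ply a b).extremePoints ℝ, b i - a i ⬝ᵥ w = t}.Finite := by
    intro i
    refine ((verts_finite a b).image fun w => b i - a i ⬝ᵥ w).subset ?_
    rintro t ⟨w, h1, h2⟩
    exact ⟨w, vert_of_extreme h1, h2⟩
  have key : ∀ K : ℕ, (∀ i, {t : ℝ | ∃ w ∈ (Ply a b).extremePoints ℝ,
      b i - a i ⬝ᵥ w = t}.ncard ≤ K) → ShortPath (Ply a b) c v (n * (K - 1)) := by
    intro K hK
    refine few_values (c := c) hv fun i => le_trans ?_ (hK i)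
    have hinj : Function.Injective fun t : ℝ => b i - t := fun s t h => by
      simp only at h
      linarith
    rw [← Set.ncard_image_of_injective
      {t : ℝ | ∃ w ∈ (Ply a b).extremePoints ℝ, a i ⬝ᵥ w = t} hinj]
    refine Set.ncard_le_ncard ?_ (hfin i)
    rintro _ ⟨t, ⟨w, hw, rfl⟩, rfl⟩
    exact ⟨w, hw, rfl⟩
  refine ⟨fun r f hf hu => ⟨fun k j x h => ?_, fun k j x h => progress hv hf hu h,
    exists_path hv hf hu⟩, key, ?_⟩
  · have hI := inv_of_run hv hf hu h
    exact ⟨run_le hv hf hu h, hI.stage, fun hj => (hI.fin hj).1⟩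
  · intro A β K hA hβ hw hK
    have h1 := key (K + 1) fun i => ?_
    · rwa [Nat.add_sub_cancel] at h1
    · have h2 : {t : ℝ | ∃ w ∈ (Ply a b).extremePoints ℝ, b i - a i ⬝ᵥ w = t} ⊆
          (fun m : ℤ => (m : ℝ)) '' (Finset.Icc (0 : ℤ) K : Finset ℤ) := by
        rintro t ⟨w, hwv, rfl⟩
        obtain ⟨u, hu⟩ := hw w hwv
        have e1 : b i - a i ⬝ᵥ w = ((β i - ∑ j, A i j * u j : ℤ) : ℝ) := by
          unfold dotProduct
          push_cast
          rw [hβ i]
          congr 1
          exact Finset.sum_congr rfl fun j _ => by rw [hA, hu]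
        have e2 : (0 : ℝ) ≤ b i - a i ⬝ᵥ w := by
          have := hwv.1 i
          linarith
        have e3 := hK i w hwv
        refine ⟨_, ?_, e1.symm⟩
        rw [Finset.coe_Icc, Set.mem_Icc]
        rw [e1] at e2 e3
        exact ⟨by exact_mod_cast e2, by exact_mod_cast e3⟩
      refine (Set.ncard_le_ncard h2 (Set.toFinite _)).trans ?_
      refine (Set.ncard_image_le (Set.toFinite _)).trans ?_
      rw [Set.ncard_coe_finset, Int.card_Icc]
      omega

end Pool.Agent.Results.MP_4d246d_lc.FewSlackLevels
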