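import Pool.Agent.Q330.LV.Rule

/-!
# The simplex method on Minkowski sums

Linear programs `max c x` over a polyhedron `P = {x : a i x ≤ b i}` in `n` variables with real data
and a start vertex `v`; `P` may be degenerate or unbounded.  Suppose that `P` is the Minkowski sum of
sets `Q t`, `t ∈ T`, with finitely many extreme points (the rules do not know the `Q t`), and let
`v = ∑ q t` with `q t ∈ Q t`.

1. The number of the pivots of the ordered shadow rule (hand-in `FewSlackLevels`; functionals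
   `f 1, …, f r` which are minimal at `v` and jointly only there) is at most `∑ t, ∑ j (L t j - 1)`, where
   `L t j` is the number of different values of `f j` at the extreme points of `Q t` in the face of `Q t`
   on which the functionals after `f j` are minimal.
2. So if every row `a i` has at most `K` different values at the extreme points of each `Q t`, then the
   ordered shadow rule for tight rows makes at most `n #T (K - 1)` pivots, from every vertex and for every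
   objective function.  (The number of the values of a row at the vertices of `P` can be `K ^ #T`.)
3. If the entries of the rows are `0`, `1`, `-1`, and the `Q t` are `0/1`-polytopes, scaled with
   arbitrary real factors and translated, then from every vertex some path with at most `n² #T` improving
   edges leads to an optimal vertex (or to one with an unbounded improving edge).
4. Every path of improving edges, so every version of the simplex method, makes at most
   `∑ t (N t - 1)` steps, where `N t` is the number of different values of `c` at the extreme points of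
   `Q t`; for a zonotope at most the number of its generators.

Proof.  The components of the two ends of an edge of `P` differ by nonnegative multiples of the edge, so
that the functionals which increase along the edge do not decrease in any component, and increase in one.
-/

set_option autoImplicit false

open Matrix

namespace Pool.Agent.Results.MP_4d246d_lc.MinkowskiSums

open Pool.Agent.Q330.LV

/-- the Minkowski sum of the sets `Q t` -/
def MSum {T : Type} [Fintype T] {n : ℕ} (Q : T → Set (Fin n → ℝ)) : Set (Fin n → ℝ) :=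
  {x | ∃ q : T → Fin n → ℝ, (∀ t, q t ∈ Q t) ∧ x = ∑ t, q t}

/-- From `v` there is a path of at most `B` improving edges of `P` to a vertex at which `c` is
maximal, or to a vertex with an unbounded improving edge. -/
def ShortPath {n : ℕ} (P : Set (Fin n → ℝ)) (c v : Fin n → ℝ) (B : ℕ) : Prop :=
  ∃ (N : ℕ) (w : ℕ → Fin n → ℝ), N ≤ B ∧ w 0 = v ∧
    (∀ i < N, Improving P c (w i) (w (i + 1))) ∧
    ((∀ z ∈ P, c ⬝ᵥ z ≤ c ⬝ᵥ w N) ∨ Ray P c (w N))

variable {ι T : Type} [Fintype ι] [Fintype T] {n r : ℕ} {Q : T → Set (Fin n → ℝ)}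

omit [Fintype ι] in
lemma sum_upd [DecidableEq T] (q : T → Fin n → ℝ) (t : T) (p : Fin n → ℝ) :
    ∑ s, Function.update q t p s = ∑ s, q s + (p - q t) := by
  rw [Finset.sum_update_of_mem (Finset.mem_univ t), ← Finset.add_sum_erase _ q (Finset.mem_univ t),
    Finset.sdiff_singleton_eq_erase]
  abel

/-- exchanging one component -/
lemma exch {q : T → Fin n → ℝ} (hq : ∀ t, q t ∈ Q t) {t : T} {p : Fin n → ℝ} (hp : p ∈ Q t) :
    ∑ s, q s + (p - q t) ∈ MSum Q := by
  classical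
  refine ⟨Function.update q t p, fun s => ?_, (sum_upd q t p).symm⟩
  by_cases h : s = t
  · subst h
    rw [Function.update_self]
    exact hp
  · rw [Function.update_of_ne h]
    exact hq s

/-- the decomposition of an extreme point is unique -/
lemma uniq {x : Fin n → ℝ} (hx : x ∈ (MSum Q).extremePoints ℝ) {q q' : T → Fin n → ℝ}
    (hq : ∀ t, q t ∈ Q t) (hq' : ∀ t, q' t ∈ Q t) (h : x = ∑ t, q t) (h' : x = ∑ t, q' t) :
    q = q' := by
  funext t
  have h1 : x + (q' t - q t) ∈ MSum Q := by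
    rw [h]
    exact exch hq (hq' t)
  have h2 : x + (q t - q' t) ∈ MSum Q := by
    rw [h']
    exact exch hq' (hq t)
  have h3 := hx.2 h1 h2 ⟨1/2, 1/2, by norm_num, by norm_num, by norm_num, by
    funext j
    simp only [Pi.add_apply, Pi.smul_apply, Pi.sub_apply, smul_eq_mul]
    ring⟩
  have h4 : q' t - q t = 0 := by
    have := h3
    rwa [add_eq_left] at this
  exact (sub_eq_zero.1 h4).symm

/-- the components of an extreme point are extreme points -/
lemma ext_comp {x : Fin n → ℝ} (hx : x ∈ (MSum Q).extremePoints ℝ) {q : T → Fin n → ℝ}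
    (hq : ∀ t, q t ∈ Q t) (h : x = ∑ t, q t) (t : T) : q t ∈ (Q t).extremePoints ℝ := by
  refine ⟨hq t, fun y hy z hz hyz => ?_⟩
  obtain ⟨α, β, hα, hβ, hαβ, he⟩ := hyz
  have h1 : x + (y - q t) ∈ MSum Q := by
    rw [h]
    exact exch hq hy
  have h2 : x + (z - q t) ∈ MSum Q := by
    rw [h]
    exact exch hq hz
  have h3 := hx.2 h1 h2 ⟨α, β, hα, hβ, hαβ, by
    funext j
    have e := congrFun he j
    simp only [Pi.add_apply, Pi.smul_apply, Pi.sub_apply, smul_eq_mul] at e ⊢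
    have e2 : α * (x j + (y j - q t j)) + β * (x j + (z j - q t j)) =
        (α + β) * (x j - q t j) + (α * y j + β * z j) := by ring
    rw [e2, hαβ, e]
    ring⟩
  rw [add_eq_left] at h3
  exact sub_eq_zero.1 h3

/-- the components of the ends of an edge -/
lemma edge_comp {x y : Fin n → ℝ} (hE : IsExposed ℝ (MSum Q) (segment ℝ x y))
    {q q' : T → Fin n → ℝ} (hq : ∀ t, q t ∈ Q t) (hq' : ∀ t, q' t ∈ Q t) (h : x = ∑ t, q t)
    (h' : y = ∑ t, q' t) (t : T) : ∃ β : ℝ, 0 ≤ β ∧ q' t - q t = β • (y - x) := by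
  obtain ⟨l, hl⟩ := hE ⟨x, left_mem_segment ℝ x y⟩
  have hx : x ∈ {z | z ∈ MSum Q ∧ ∀ u ∈ MSum Q, l u ≤ l z} := by
    rw [← hl]
    exact left_mem_segment ℝ x y
  have hy : y ∈ {z | z ∈ MSum Q ∧ ∀ u ∈ MSum Q, l u ≤ l z} := by
    rw [← hl]
    exact right_mem_segment ℝ x y
  have h1 : x + (q' t - q t) ∈ MSum Q := by
    rw [h]
    exact exch hq (hq' t)
  have h2 : y + (q t - q' t) ∈ MSum Q := by
    rw [h']
    exact exch hq' (hq t)
  have e1 := hx.2 _ h1
  have e2 := hy.2 _ h2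
  rw [map_add] at e1 e2
  have e3 : l (q' t - q t) = 0 := by
    rw [map_sub] at e1 e2 ⊢
    linarith
  have h3 : x + (q' t - q t) ∈ segment ℝ x y := by
    rw [hl]
    refine ⟨h1, fun u hu => ?_⟩
    rw [map_add, e3, add_zero]
    exact hx.2 u hu
  obtain ⟨α, β, hα, hβ, hαβ, he⟩ := h3
  refine ⟨β, hβ, ?_⟩
  funext j
  have e := congrFun he j
  simp only [Pi.add_apply, Pi.smul_apply, Pi.sub_apply, smul_eq_mul] at e ⊢
  have e4 : α = 1 - β := by linarith
  rw [e4] at e
  linarith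

/-- a functional which increases along an edge does not decrease in any component, and increases in
one of them -/
lemma rise {x y g : Fin n → ℝ} (hE : IsExposed ℝ (MSum Q) (segment ℝ x y)) (hg : g ⬝ᵥ x < g ⬝ᵥ y)
    {q q' : T → Fin n → ℝ} (hq : ∀ t, q t ∈ Q t) (hq' : ∀ t, q' t ∈ Q t) (h : x = ∑ t, q t)
    (h' : y = ∑ t, q' t) : (∀ t, g ⬝ᵥ q t ≤ g ⬝ᵥ q' t) ∧ ∃ t, g ⬝ᵥ q t < g ⬝ᵥ q' t := by
  have h1 : ∀ t, g ⬝ᵥ q t ≤ g ⬝ᵥ q' t := by
    intro t
    obtain ⟨β, hβ, e⟩ := edge_comp hE hq hq' h h' t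
    have e1 := congrArg (fun u => g ⬝ᵥ u) e
    simp only [dotProduct_sub, dotProduct_smul, smul_eq_mul] at e1
    have e2 : 0 ≤ β * (g ⬝ᵥ y - g ⬝ᵥ x) := mul_nonneg hβ (by linarith)
    linarith
  refine ⟨h1, ?_⟩
  by_contra hcon
  push Not at hcon
  have h2 : ∀ t, g ⬝ᵥ q t = g ⬝ᵥ q' t := fun t => le_antisymm (h1 t) (hcon t)
  have h3 : g ⬝ᵥ x = g ⬝ᵥ y := by
    rw [h, h', dotProduct_sum, dotProduct_sum]
    exact Finset.sum_congr rfl fun t _ => h2 t
  exact lt_irrefl _ (h3 ▸ hg)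

/-- the components of the points of a face -/
lemma face_comp {f : Fin r → Fin n → ℝ} {v : Fin n → ℝ} {q : T → Fin n → ℝ} (hq : ∀ t, q t ∈ Q t)
    (hv : v = ∑ t, q t) (hf : ∀ i, ∀ z ∈ MSum Q, f i ⬝ᵥ v ≤ f i ⬝ᵥ z) {j : ℕ} {x : Fin n → ℝ}
    (hx : x ∈ Fc (MSum Q) f v j) {p : T → Fin n → ℝ} (hp : ∀ t, p t ∈ Q t) (hxp : x = ∑ t, p t)
    (t : T) : p t ∈ Fc (Q t) f (q t) j := by
  refine ⟨hp t, fun i hi => ?_⟩
  have h1 : ∀ s, f i ⬝ᵥ q s ≤ f i ⬝ᵥ p s := by
    intro s
    have e := hf i _ (by rw [hv]; exact exch hq (hp s) : v + (p s - q s) ∈ MSum Q)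
    rw [dotProduct_add, dotProduct_sub] at e
    linarith
  have h2 : ∑ s, f i ⬝ᵥ q s = ∑ s, f i ⬝ᵥ p s := by
    rw [← dotProduct_sum, ← dotProduct_sum, ← hv, ← hxp]
    exact (hx.2 i hi).symm
  have h3 := (Finset.sum_eq_sum_iff_of_le fun s _ => h1 s).1 h2 t (Finset.mem_univ t)
  exact h3.symm

variable {f : Fin r → Fin n → ℝ}

lemma bel_fin {S : Set (Fin n → ℝ)} (hS : (S.extremePoints ℝ).Finite) (v x : Fin n → ℝ) (j : Fin r) :
    (bel S f v j x).Finite := by
  refine (hS.image fun w => f j ⬝ᵥ w).subset ?_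
  rintro t ⟨⟨w, h1, -, h2⟩, -⟩
  exact ⟨w, h1, h2⟩

lemma bel_lt' {S : Set (Fin n → ℝ)} (hS : (S.extremePoints ℝ).Finite) {v x : Fin n → ℝ} (j : Fin r)
    (hx : x ∈ S.extremePoints ℝ) (hxF : x ∈ Fc S f v (j + 1)) :
    (bel S f v j x).ncard ≤ levels S f v j - 1 := by
  have h1 : bel S f v j x ⊂
      {t : ℝ | ∃ w ∈ S.extremePoints ℝ, w ∈ Fc S f v (j + 1) ∧ f j ⬝ᵥ w = t} := by
    refine ⟨fun _ h => h.1, fun h => ?_⟩
    exact lt_irrefl _ (h ⟨x, hx, hxF, rfl⟩).2
  have h2 : {t : ℝ | ∃ w ∈ S.extremePoints ℝ, w ∈ Fc S f v (j + 1) ∧ f j ⬝ᵥ w = t}.Finite := by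
    refine (hS.image fun w => f j ⬝ᵥ w).subset ?_
    rintro t ⟨w, h1, -, h2⟩
    exact ⟨w, h1, h2⟩
  have h3 := Set.ncard_lt_ncard h1 h2
  unfold levels
  omega

/-- the number of the values below the components increases along an edge -/
lemma bel_sum {v : T → Fin n → ℝ} (hfin : ∀ t, ((Q t).extremePoints ℝ).Finite) (j : Fin r)
    {x y : Fin n → ℝ} (hE : IsExposed ℝ (MSum Q) (segment ℝ x y)) (hg : f j ⬝ᵥ x < f j ⬝ᵥ y)
    {q q' : T → Fin n → ℝ} (hq : ∀ t, q t ∈ (Q t).extremePoints ℝ) (hq' : ∀ t, q' t ∈ Q t)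
    (h : x = ∑ t, q t) (h' : y = ∑ t, q' t) (hF : ∀ t, q t ∈ Fc (Q t) f (v t) (j + 1)) :
    ∑ t, (bel (Q t) f (v t) j (q t)).ncard + 1 ≤ ∑ t, (bel (Q t) f (v t) j (q' t)).ncard := by
  obtain ⟨h1, t, h2⟩ := rise hE hg (fun t => (hq t).1) hq' h h'
  have h3 : ∀ s, (bel (Q s) f (v s) j (q s)).ncard ≤ (bel (Q s) f (v s) j (q' s)).ncard := fun s =>
    Set.ncard_le_ncard (fun _ h => ⟨h.1, h.2.trans_le (h1 s)⟩) (bel_fin (hfin s) _ _ _)
  have h4 : (bel (Q t) f (v t) j (q t)).ncard < (bel (Q t) f (v t) j (q' t)).ncard := by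
    refine Set.ncard_lt_ncard ⟨fun _ h => ⟨h.1, h.2.trans h2⟩, fun h5 => ?_⟩ (bel_fin (hfin t) _ _ _)
    exact lt_irrefl _ (h5 ⟨⟨q t, hq t, hF t, rfl⟩, h2⟩).2
  exact Nat.succ_le_of_lt (Finset.sum_lt_sum (fun s _ => h3 s) ⟨t, Finset.mem_univ t, h4⟩)

/-- the invariant of the rule -/
lemma inv {v c : Fin n → ℝ} (hfin : ∀ t, ((Q t).extremePoints ℝ).Finite)
    {q : T → Fin n → ℝ} (hq : ∀ t, q t ∈ Q t) (hvq : v = ∑ t, q t)
    (hv : v ∈ (MSum Q).extremePoints ℝ) (hf : ∀ i, ∀ z ∈ MSum Q, f i ⬝ᵥ v ≤ f i ⬝ᵥ z)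
    {k j : ℕ} {x : Fin n → ℝ} (h : Run (MSum Q) c f v k j x) :
    x ∈ (MSum Q).extremePoints ℝ ∧ x ∈ Fc (MSum Q) f v (j + 1) ∧ j ≤ r ∧
      ∀ p : T → Fin n → ℝ, (∀ t, p t ∈ Q t) → x = ∑ t, p t →
        (∀ h : j < r, k ≤ ∑ t, Bd (Q t) f (q t) j + ∑ t, (bel (Q t) f (q t) ⟨j, h⟩ (p t)).ncard) ∧
        (j = r → k ≤ ∑ t, Bd (Q t) f (q t) j) := by
  induction h with
  | start => exact ⟨hv, ⟨hv.1, fun _ _ => rfl⟩, Nat.zero_le _, fun p _ _ =>
      ⟨fun _ => Nat.zero_le _, fun _ => Nat.zero_le _⟩⟩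
  | @pivot k j x y _ hp ih =>
    obtain ⟨i1, i2, i3, i4⟩ := ih
    refine ⟨hp.right, hp.right_mem, j.2.le, fun p hpQ hyp => ⟨fun h => ?_, fun h => ?_⟩⟩
    · obtain ⟨p', hp'Q, hxp'⟩ := i1.1
      have e1 := (i4 p' hp'Q hxp').1 j.2
      have e2 := bel_sum (f := f) (v := q) hfin j hp.edge hp.rising
        (fun t => ext_comp i1 hp'Q hxp' t) hpQ hxp' hyp
        (fun t => face_comp hq hvq hf i2 hp'Q hxp' t)
      have e3 : (⟨(j : ℕ), j.2⟩ : Fin r) = j := rfl
      rw [e3] at e1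
      have e4 : (⟨(j : ℕ), h⟩ : Fin r) = j := rfl
      rw [e4]
      omega
    · exact absurd j.2 (by omega)
  | @next k j x _ hmax ih =>
    obtain ⟨i1, i2, i3, i4⟩ := ih
    have key : k ≤ ∑ t, Bd (Q t) f (q t) (j + 1) := by
      obtain ⟨p, hpQ, hxp⟩ := i1.1
      have e1 := (i4 p hpQ hxp).1 j.2
      have e3 : (⟨(j : ℕ), j.2⟩ : Fin r) = j := rfl
      rw [e3] at e1
      refine e1.trans ?_
      rw [← Finset.sum_add_distrib]
      refine Finset.sum_le_sum fun t _ => ?_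
      rw [bd_succ]
      exact Nat.add_le_add_left (bel_lt' (hfin t) j (ext_comp i1 hpQ hxp t)
        (face_comp hq hvq hf i2 hpQ hxp t)) _
    exact ⟨i1, fc_mono (Nat.le_succ _) i2, j.2, fun p _ _ =>
      ⟨fun h => key.trans (Nat.le_add_right _ _), fun _ => key⟩⟩

/-- the number of the pivots of the ordered shadow rule -/
lemma run_bound {v c : Fin n → ℝ} (hfin : ∀ t, ((Q t).extremePoints ℝ).Finite)
    {q : T → Fin n → ℝ} (hq : ∀ t, q t ∈ Q t) (hvq : v = ∑ t, q t)
    (hv : v ∈ (MSum Q).extremePoints ℝ) (hf : ∀ i, ∀ z ∈ MSum Q, f i ⬝ᵥ v ≤ f i ⬝ᵥ z)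
    {k j : ℕ} {x : Fin n → ℝ} (h : Run (MSum Q) c f v k j x) :
    k ≤ ∑ t, ∑ i, (levels (Q t) f (q t) i - 1) := by
  obtain ⟨i1, i2, i3, i4⟩ := inv hfin hq hvq hv hf h
  obtain ⟨p, hpQ, hxp⟩ := i1.1
  rcases i3.lt_or_eq with h1 | h1
  · refine ((i4 p hpQ hxp).1 h1).trans ?_
    rw [← Finset.sum_add_distrib]
    refine Finset.sum_le_sum fun t _ => ?_
    have e1 := bel_lt' (hfin t) (f := f) (v := q t) ⟨j, h1⟩ (ext_comp i1 hpQ hxp t)
      (face_comp hq hvq hf i2 hpQ hxp t)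
    have e2 := bd_succ (Q t) (f := f) (v := q t) ⟨j, h1⟩
    have e3 := bd_le (f := f) (v := q t) (Q t) (j + 1)
    simp only at e2
    omega
  · exact ((i4 p hpQ hxp).2 h1).trans (Finset.sum_le_sum fun t _ => bd_le _ _)

/-- every path of improving edges -/
lemma any_path {c : Fin n → ℝ} (hfin : ∀ t, ((Q t).extremePoints ℝ).Finite) {N : ℕ}
    {w : ℕ → Fin n → ℝ} (hw : ∀ i < N, Improving (MSum Q) c (w i) (w (i + 1))) :
    N ≤ ∑ t, ({s : ℝ | ∃ u ∈ (Q t).extremePoints ℝ, c ⬝ᵥ u = s}.ncard - 1) := by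
  rcases Nat.eq_zero_or_pos N with h0 | h0
  · rw [h0]
    exact Nat.zero_le _
  have hext : ∀ i, i ≤ N → w i ∈ (MSum Q).extremePoints ℝ := by
    intro i hi
    rcases hi.lt_or_eq with h | h
    · exact (hw i h).1
    · have := (hw (i - 1) (by omega)).2.1
      rwa [show i - 1 + 1 = i by omega] at this
  -- one functional, no conditions
  let F : Fin 1 → Fin n → ℝ := fun _ => c
  have hFc : ∀ t (x : Fin n → ℝ), x ∈ Q t → x ∈ Fc (Q t) F (0 : Fin n → ℝ) ((0 : Fin 1) + 1) := by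
    intro t x hx
    refine ⟨hx, fun i hi => ?_⟩
    have := i.2
    simp only [Fin.val_zero] at hi
    omega
  have key : ∀ i, i ≤ N → ∀ p : T → Fin n → ℝ, (∀ t, p t ∈ Q t) → w i = ∑ t, p t →
      i ≤ ∑ t, (bel (Q t) F 0 0 (p t)).ncard := by
    intro i
    induction i with
    | zero => intro _ p _ _; exact Nat.zero_le _
    | succ i ih =>
      intro hi p hp hwp
      obtain ⟨p', hp', hwp'⟩ := (hext i (by omega)).1
      have e1 := ih (by omega) p' hp' hwp'
      have e2 := bel_sum (f := F) (v := fun _ => 0) hfin 0 (hw i (by omega)).2.2.1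
        (hw i (by omega)).2.2.2 (fun t => ext_comp (hext i (by omega)) hp' hwp' t) hp hwp' hwp
        (fun t => hFc t _ (hp' t))
      omega
  obtain ⟨p, hp, hwp⟩ := (hext N le_rfl).1
  refine (key N le_rfl p hp hwp).trans (Finset.sum_le_sum fun t _ => ?_)
  have e1 := bel_lt' (hfin t) (f := F) (v := 0) 0 (ext_comp (hext N le_rfl) hp hwp t)
    (hFc t _ (hp t))
  refine e1.trans (Nat.sub_le_sub_right ?_ 1)
  unfold levels
  refine Set.ncard_le_ncard ?_ ?_
  · rintro s ⟨u, h1, -, h2⟩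
    exact ⟨u, h1, h2⟩
  · refine ((hfin t).image fun w => c ⬝ᵥ w).subset ?_
    rintro s ⟨u, h1, h2⟩
    exact ⟨u, h1, h2⟩

theorem result (a : ι → Fin n → ℝ) (b : ι → ℝ) (c v : Fin n → ℝ) (Q : T → Set (Fin n → ℝ))
    (hQ : Ply a b = MSum Q) (hfin : ∀ t, ((Q t).extremePoints ℝ).Finite)
    (hv : v ∈ (Ply a b).extremePoints ℝ) (q : T → Fin n → ℝ) (hq : ∀ t, q t ∈ Q t)
    (hvq : v = ∑ t, q t) :
    -- the ordered shadow rule
    (∀ (r : ℕ) (f : Fin r → Fin n → ℝ), (∀ i, ∀ z ∈ Ply a b, f i ⬝ᵥ v ≤ f i ⬝ᵥ z) →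
      (∀ z ∈ Ply a b, (∀ i, f i ⬝ᵥ z = f i ⬝ᵥ v) → z = v) →
      (∀ (k j : ℕ) (x : Fin n → ℝ), Run (Ply a b) c f v k j x →
        k ≤ ∑ t, ∑ i, (levels (Q t) f (q t) i - 1)) ∧
      ShortPath (Ply a b) c v (∑ t, ∑ i, (levels (Q t) f (q t) i - 1))) ∧
    -- few values of the rows on the summands
    (∀ K : ℕ, (∀ i t, {s : ℝ | ∃ w ∈ (Q t).extremePoints ℝ, a i ⬝ᵥ w = s}.ncard ≤ K) →
      (∀ (d : ℕ) (idx : Fin d → ι), (∀ l, a (idx l) ⬝ᵥ v = b (idx l)) →
        (∀ z : Fin n → ℝ, (∀ l, a (idx l) ⬝ᵥ z = 0) → z = 0) →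
        ∀ (k j : ℕ) (x : Fin n → ℝ), Run (Ply a b) c (fun l => -a (idx l)) v k j x →
          k ≤ d * (Fintype.card T * (K - 1))) ∧
      ShortPath (Ply a b) c v (n * (Fintype.card T * (K - 1)))) ∧
    -- sums of scaled 0/1-polytopes
    ((∀ i j, a i j = -1 ∨ a i j = 0 ∨ a i j = 1) →
      (∀ t, ∃ (s : Fin n → ℝ) (μ : ℝ), ∀ w ∈ (Q t).extremePoints ℝ, ∀ j, w j = s j ∨ w j = s j + μ) →
      ShortPath (Ply a b) c v (n ^ 2 * Fintype.card T)) ∧
    -- every version of the simplex method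
    (∀ (N : ℕ) (w : ℕ → Fin n → ℝ), (∀ i < N, Improving (Ply a b) c (w i) (w (i + 1))) →
      N ≤ ∑ t, ({s : ℝ | ∃ u ∈ (Q t).extremePoints ℝ, c ⬝ᵥ u = s}.ncard - 1)) := by
  have hv' := hv
  rw [hQ] at hv'
  have part1 : ∀ (r : ℕ) (f : Fin r → Fin n → ℝ), (∀ i, ∀ z ∈ Ply a b, f i ⬝ᵥ v ≤ f i ⬝ᵥ z) →
      (∀ z ∈ Ply a b, (∀ i, f i ⬝ᵥ z = f i ⬝ᵥ v) → z = v) →
      (∀ (k j : ℕ) (x : Fin n → ℝ), Run (Ply a b) c f v k j x →
        k ≤ ∑ t, ∑ i, (levels (Q t) f (q t) i - 1)) ∧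
      ShortPath (Ply a b) c v (∑ t, ∑ i, (levels (Q t) f (q t) i - 1)) := by
    intro r f hf hu
    have h1 : ∀ (k j : ℕ) (x : Fin n → ℝ), Run (Ply a b) c f v k j x →
        k ≤ ∑ t, ∑ i, (levels (Q t) f (q t) i - 1) := by
      intro k j x h
      rw [hQ] at h hf
      exact run_bound hfin hq hvq hv' hf h
    refine ⟨h1, ?_⟩
    obtain ⟨k, j, x, h2, h3⟩ := exists_run (c := c) hv hf hu
    obtain ⟨w, h4, h5, h6⟩ := path_of_run h2
    exact ⟨k, w, h1 k j x h2, h4, h6, by rw [h5]; exact h3⟩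
  have tight : ∀ (d : ℕ) (idx : Fin d → ι), (∀ l, a (idx l) ⬝ᵥ v = b (idx l)) →
      (∀ z : Fin n → ℝ, (∀ l, a (idx l) ⬝ᵥ z = 0) → z = 0) →
      (∀ i, ∀ z ∈ Ply a b, (fun l => -a (idx l)) i ⬝ᵥ v ≤ (fun l => -a (idx l)) i ⬝ᵥ z) ∧
      (∀ z ∈ Ply a b, (∀ i, (fun l => -a (idx l)) i ⬝ᵥ z = (fun l => -a (idx l)) i ⬝ᵥ v) → z = v) := by
    intro d idx h1 h2
    refine ⟨fun k z hz => ?_, fun z hz h => ?_⟩
    · simp only
      rw [neg_dotProduct, neg_dotProduct, h1 k]
      have := hz (idx k)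
      linarith
    · refine sub_eq_zero.1 (h2 _ fun k => ?_)
      have := h k
      simp only at this
      rw [neg_dotProduct, neg_dotProduct] at this
      rw [dotProduct_sub]
      linarith
  have part2 : ∀ K : ℕ, (∀ i t, {s : ℝ | ∃ w ∈ (Q t).extremePoints ℝ, a i ⬝ᵥ w = s}.ncard ≤ K) →
      (∀ (d : ℕ) (idx : Fin d → ι), (∀ l, a (idx l) ⬝ᵥ v = b (idx l)) →
        (∀ z : Fin n → ℝ, (∀ l, a (idx l) ⬝ᵥ z = 0) → z = 0) →
        ∀ (k j : ℕ) (x : Fin n → ℝ), Run (Ply a b) c (fun l => -a (idx l)) v k j x →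
          k ≤ d * (Fintype.card T * (K - 1))) ∧
      ShortPath (Ply a b) c v (n * (Fintype.card T * (K - 1))) := by
    intro K hK
    have hlev : ∀ (d : ℕ) (idx : Fin d → ι),
        ∑ t, ∑ i, (levels (Q t) (fun l => -a (idx l)) (q t) i - 1) ≤
          d * (Fintype.card T * (K - 1)) := by
      intro d idx
      calc ∑ t, ∑ i, (levels (Q t) (fun l => -a (idx l)) (q t) i - 1)
          ≤ ∑ _t : T, ∑ _i : Fin d, (K - 1) := by
            refine Finset.sum_le_sum fun t _ => Finset.sum_le_sum fun i _ =>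
              Nat.sub_le_sub_right ?_ 1
            refine le_trans ?_ (hK (idx i) t)
            unfold levels
            have hfin' : {s : ℝ | ∃ w ∈ (Q t).extremePoints ℝ, a (idx i) ⬝ᵥ w = s}.Finite := by
              refine ((hfin t).image fun w => a (idx i) ⬝ᵥ w).subset ?_
              rintro s ⟨w, h1, h2⟩
              exact ⟨w, h1, h2⟩
            rw [← Set.ncard_image_of_injective
              {s : ℝ | ∃ w ∈ (Q t).extremePoints ℝ, a (idx i) ⬝ᵥ w = s} neg_injective]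
            refine Set.ncard_le_ncard ?_ (hfin'.image _)
            rintro s ⟨w, hw, -, rfl⟩
            exact ⟨_, ⟨w, hw, rfl⟩, (neg_dotProduct _ _).symm⟩
        _ = d * (Fintype.card T * (K - 1)) := by
            rw [Finset.sum_const, Finset.sum_const, Finset.card_univ, Finset.card_univ,
              Fintype.card_fin, smul_eq_mul, smul_eq_mul]
            ring
    refine ⟨fun d idx h1 h2 k j x h => ?_, ?_⟩
    · obtain ⟨g1, g2⟩ := tight d idx h1 h2
      exact ((part1 d _ g1 g2).1 k j x h).trans (hlev d idx)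
    · obtain ⟨d, idx, hd, h1, h2⟩ := exists_rows (vert_of_extreme hv)
      obtain ⟨g1, g2⟩ := tight d idx (fun l => mem_tg.1 (h1 l)) h2
      obtain ⟨N, w, h3, h4⟩ := (part1 d _ g1 g2).2
      exact ⟨N, w, (h3.trans (hlev d idx)).trans (Nat.mul_le_mul_right _ hd), h4⟩
  refine ⟨part1, part2, fun ha hs => ?_, fun N w hw => ?_⟩
  · have hK : ∀ i t, {s : ℝ | ∃ w ∈ (Q t).extremePoints ℝ, a i ⬝ᵥ w = s}.ncard ≤ n + 1 := by
      intro i t
      obtain ⟨s, μ, hsμ⟩ := hs t
      classical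
      set A : Finset (Fin n) := Finset.univ.filter fun j => a i j = 1 with hA
      set B : Finset (Fin n) := Finset.univ.filter fun j => a i j = -1 with hB
      have hAB : A.card + B.card ≤ n := by
        have hd : Disjoint A B := by
          rw [Finset.disjoint_left]
          intro j h1 h2
          rw [hA, Finset.mem_filter] at h1
          rw [hB, Finset.mem_filter] at h2
          have := h1.2.symm.trans h2.2
          norm_num at this
        have := Finset.card_le_univ (A ∪ B)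
        rw [Finset.card_union_of_disjoint hd, Fintype.card_fin] at this
        exact this
      have hsub : {s : ℝ | ∃ w ∈ (Q t).extremePoints ℝ, a i ⬝ᵥ w = s} ⊆
          (fun m : ℤ => a i ⬝ᵥ s + m * μ) '' (Finset.Icc (-(B.card : ℤ)) A.card : Finset ℤ) := by
        rintro _ ⟨w, hw, rfl⟩
        set C : Finset (Fin n) := Finset.univ.filter fun j => w j ≠ s j with hC
        refine ⟨((A.filter (· ∈ C)).card : ℤ) - (B.filter (· ∈ C)).card, ?_, ?_⟩
        · rw [Finset.coe_Icc, Set.mem_Icc]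
          have h1 := Finset.card_filter_le A (· ∈ C)
          have h2 := Finset.card_filter_le B (· ∈ C)
          constructor <;> omega
        · simp only
          have e1 : ∀ j, a i j * w j = a i j * s j + ((if j ∈ A.filter (· ∈ C) then μ else 0) -
              (if j ∈ B.filter (· ∈ C) then μ else 0)) := by
            intro j
            have hjA : j ∈ A ↔ a i j = 1 := by rw [hA, Finset.mem_filter]; simp
            have hjB : j ∈ B ↔ a i j = -1 := by rw [hB, Finset.mem_filter]; simp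
            have hjC : j ∈ C ↔ w j ≠ s j := by rw [hC, Finset.mem_filter]; simp
            simp only [Finset.mem_filter, hjA, hjB, hjC]
            by_cases hw0 : w j = s j
            · simp [hw0]
            · have hw1 : w j = s j + μ := (hsμ w hw j).resolve_left hw0
              rcases ha i j with h | h | h
              · rw [if_neg (by rw [h]; norm_num), if_pos ⟨h, hw0⟩, h, hw1]
                ring
              · rw [if_neg (by rw [h]; norm_num), if_neg (by rw [h]; norm_num), h]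
                ring
              · rw [if_pos ⟨h, hw0⟩, if_neg (by rw [h]; norm_num), h, hw1]
                ring
          unfold dotProduct
          rw [Finset.sum_congr rfl fun j _ => e1 j, Finset.sum_add_distrib, Finset.sum_sub_distrib,
            Finset.sum_ite_mem, Finset.sum_ite_mem, Finset.univ_inter, Finset.univ_inter,
            Finset.sum_const, Finset.sum_const, nsmul_eq_mul, nsmul_eq_mul]
          push_cast
          ring
      refine (Set.ncard_le_ncard hsub (Set.toFinite _)).trans ?_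
      refine (Set.ncard_image_le (Set.toFinite _)).trans ?_
      rw [Set.ncard_coe_finset, Int.card_Icc]
      omega
    have h1 := (part2 (n + 1) hK).2
    rw [Nat.add_sub_cancel] at h1
    have e : n * (Fintype.card T * n) = n ^ 2 * Fintype.card T := by ring
    rwa [e] at h1
  · rw [hQ] at hw
    exact any_path hfin hw

end Pool.Agent.Results.MP_4d246d_lc.MinkowskiSums
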