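import Pool.Agent.Y644.QS.Final

/-!
# A version of the simplex method that runs in quasi-polynomial time

There is a deterministic Turing machine that, given a linear program and a vertex, writes down a
path of improving edges from this vertex to a vertex which is optimal or has an unbounded improving
edge.  Its running time is at most `2 ^ (C (log L + 1) ^ 2)` for inputs of length `L`, on every
linear program; and a second machine runs in polynomial time on all inputs of length `L` for which
the number of variables is at most `C log L`, or the number `m` of constraints besides `x ≥ 0`
satisfies `(log m) ^ 2 ≤ C log L`.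

*The method.*  A call goes from a vertex to the top of the polyhedron given by `k` inequalities in
dimension `D`.  The facets are ordered by their tops.  If the current vertex is on no facet of the
upper half, the upper half is dropped and we follow a path in this relaxation until it reaches a
dropped facet; inside this facet we go to the top (one dimension less), take an improving edge, and
drop all facets below.  This is the recursion of Kalai and Kleitman for monotone paths, with the
bound `8 k * choose (D + log k, D)`; all decisions are made by solving linear programs in
polynomial time in exact arithmetic (Chubanov's algorithm for a relatively interior point of a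
cone, and a binary search for the medians), which is proved correct and polynomial for Turing
machines here.  The second bound is useful if there are many more variables than constraints.
-/

set_option autoImplicit false

namespace Pool.Agent.Results.MP_4d246d_lc.QuasiPolynomialTime

open Pool.Agent.Y644.QS Pool.Agent.NPC Pool.Agent.NPC.Y644 Pool.Agent.NPC.H532.RP

/-- `F` is a version of the simplex method, correct for the inputs in `S`: for a linear program
`max c x` over `P = {x : A x ≤ b, x ≥ 0}` with `m` constraints and `n` variables, with rational
coefficients, and a vertex `v` of `P`, if the input (as a bit string) is in `S`, the output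
consists of vertices `x 0 = v, …, x N` of `P`, such that `x (k + 1)` is joined to `x k` by an edge
of `P` along which the objective increases; `x N` is optimal, or the output also contains a
direction of an unbounded edge at `x N` along which the objective increases.  Moreover the number
`N` of steps satisfies two bounds. -/
def SimplexMethodOn (F : List Bool → List Bool) (S : ℕ → ℕ → ℕ → Prop) : Prop :=
  ∀ (m n : ℕ) (A : Fin m → Fin n → ℚ) (b : Fin m → ℚ) (c v : Fin n → ℚ),
    re v ∈ Set.extremePoints ℝ (polyhedron A b) → S m n (bits (inp A b c v)).length →
    ∃ (N : ℕ) (x : ℕ → Fin n → ℚ) (d : Option (Fin n → ℚ)),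
      F (bits (inp A b c v)) =
        bits (((List.range (N + 1)).map (fun k => List.ofFn (x k)), d.map List.ofFn) : Outp) ∧
      IsSimplexPath (polyhedron A b) c v N x d ∧
      N ≤ (8 * (m + n) + 1) * Nat.choose (n + Nat.size (m + n)) n ∧
      N ≤ 2 * (m + n) + (16 * m + 9) * Nat.choose (m + 1 + Nat.size (2 * m + 1)) (m + 1)

theorem bounds {m n N : ℕ} (h : N ≤ stepsB m n) :
    N ≤ (8 * (m + n) + 1) * Nat.choose (n + Nat.size (m + n)) n ∧
      N ≤ 2 * (m + n) + (16 * m + 9) * Nat.choose (m + 1 + Nat.size (2 * m + 1)) (m + 1) := by
  have h1 : N ≤ bnd n (m + n) := h.trans (min_le_left _ _)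
  have h2 : N ≤ 2 * (m + n) + bnd (m + 1) (2 * m + 1) := h.trans (min_le_right _ _)
  unfold bnd at h1 h2
  refine ⟨h1.trans (Nat.mul_le_mul_right _ (wt_le _)), h2.trans (Nat.add_le_add_left ?_ _)⟩
  refine Nat.mul_le_mul_right _ ((wt_le _).trans ?_)
  omega

/-- There is a version of the simplex method that runs in quasi-polynomial time on every linear
program.  For every `C` there is a polynomial-time algorithm which is a version of the simplex
method on all linear programs of input length `L` with at most `C log L` variables, or with `m`
constraints besides `x ≥ 0` where `(log m) ^ 2 ≤ C log L`.  The input consists of the linear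
program and a vertex, but its length is polynomially bounded in the length of the linear program
alone. -/
theorem result :
    (∃ F : List Bool → List Bool, QuasiPolyTime F ∧ SimplexMethodOn F fun _ _ _ => True) ∧
    (∀ C : ℕ, ∃ F : List Bool → List Bool, PolyTime F ∧
      SimplexMethodOn F fun m n L => n ≤ C * Nat.log 2 L ∨ Nat.log 2 m ^ 2 ≤ C * Nat.log 2 L) ∧
    ∃ q : Polynomial ℕ, ∀ (m n : ℕ) (A : Fin m → Fin n → ℚ) (b : Fin m → ℚ) (c v : Fin n → ℚ),
      re v ∈ Set.extremePoints ℝ (polyhedron A b) →
      (bits (inp A b c v)).length ≤
        q.eval (bits (List.ofFn fun i => List.ofFn (A i), List.ofFn b, List.ofFn c)).length := by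
  refine ⟨⟨_, quasi_lp, ?_⟩, fun C => ⟨_, poly_lp C, ?_⟩, exists_vertex_bound⟩
  · intro m n A b c v hv _
    obtain ⟨N, x, d, h1, h2, h3⟩ := lpRun_spec (c := c) hv
    refine ⟨N, x, d, ?_, h2, bounds h3⟩
    have hL : m + n < (bits (inp A b c v)).length := by
      rw [bits_length]; exact le_sz_inp
    have h4 := h1 _ (stepsB_le_main hL)
    show bits (lpBits (bits (inp A b c v)) _) = _
    rw [lpBits_inp, h4]
  · intro m n A b c v hv hS
    obtain ⟨N, x, d, h1, h2, h3⟩ := lpRun_spec (c := c) hv
    refine ⟨N, x, d, ?_, h2, bounds h3⟩
    have hL : m + n < (bits (inp A b c v)).length := by
      rw [bits_length]; exact le_sz_inp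
    have h4 := h1 (Kc C (bits (inp A b c v)).length) (by
      rcases hS with h | h
      · exact stepsB_le_of_dim hL h
      · exact stepsB_le_of_con hL h)
    show bits (lpBits (bits (inp A b c v)) _) = _
    rw [lpBits_inp, h4]

end Pool.Agent.Results.MP_4d246d_lc.QuasiPolynomialTime
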